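import Pool.Agent.Q195.AD3
import Pool.Agent.H883B.Stmts

/-!
# MP_d97def_al, Q1 for X = d and X = a: a group with property (d) is amenable

Every non-amenable group is the union of two disjoint sets `A`, `Aᶜ` with
`is₁₂(A) = is₁₂(Aᶜ) = 0`.
-/

set_option autoImplicit false

namespace Pool.Agent.Results.MP_d97def_al.PropertyDAmenable

open Finset

universe u

variable {G : Type u}

open Classical in
/-- `μ(B)` for a finitely supported function `μ` on `G`, seen as a measure: the sum of the values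
`μ(a)` over the points `a ∈ B` of the support. -/
noncomputable def mass (μ : G →₀ ℝ) (B : Set G) : ℝ := μ.sum fun a t => if a ∈ B then t else 0

/-- `μ` is a finitely supported probability measure, `μ ∈ P_ω(G)`. -/
def IsProb (μ : G →₀ ℝ) : Prop := (∀ a, 0 ≤ μ a) ∧ (μ.sum fun _ t => t) = 1

/-- `is₁₂(A) = inf_{μ ∈ P_ω(G)} sup_{y ∈ G} μ(A y)`. -/
noncomputable def is12 [Group G] (A : Set G) : ℝ :=
  ⨅ μ : {μ : G →₀ ℝ // IsProb μ}, ⨆ y : G, mass (μ : G →₀ ℝ) ((fun a => a * y) '' A)

/-- Property (a): for every `n ≥ 1`, every partition of `G` into `n` nonempty cells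
`{x | c x = i}` has a cell `A` with `is₁₂(A) ≥ 1/n`. -/
def PropertyA (G : Type u) [Group G] : Prop :=
  ∀ n : ℕ, 1 ≤ n → ∀ c : G → Fin n, Function.Surjective c →
    ∃ i : Fin n, 1 / (n : ℝ) ≤ is12 {x | c x = i}

/-- Property (d): for every `n ≥ 1`, every partition of `G` into `n` nonempty cells
`{x | c x = i}` has a cell `A` with `is₁₂(A) > 0`. -/
def PropertyD (G : Type u) [Group G] : Prop :=
  ∀ n : ℕ, 1 ≤ n → ∀ c : G → Fin n, Function.Surjective c →
    ∃ i : Fin n, 0 < is12 {x | c x = i}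

theorem mass_nonneg {μ : G →₀ ℝ} (h : IsProb μ) (B : Set G) : 0 ≤ mass μ B := by
  classical
  unfold mass
  refine Finsupp.sum_nonneg fun a _ => ?_
  split_ifs
  · exact h.1 a
  · exact le_refl _

theorem mass_le_one {μ : G →₀ ℝ} (h : IsProb μ) (B : Set G) : mass μ B ≤ 1 := by
  classical
  rw [← h.2]
  unfold mass Finsupp.sum
  refine Finset.sum_le_sum fun a _ => ?_
  show (if a ∈ B then μ a else 0) ≤ μ a
  split_ifs
  · exact le_refl _
  · exact h.1 a

theorem mass_univ {μ : G →₀ ℝ} (h : IsProb μ) : mass μ Set.univ = 1 := by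
  classical
  unfold mass
  simp only [Set.mem_univ, if_true]
  exact h.2

/-- The measure with masses `w i` at the points `i ∈ s`. -/
noncomputable def meas (s : Finset G) (w : G → ℝ) : G →₀ ℝ :=
  ∑ i ∈ s, Finsupp.single i (w i)

theorem meas_sum (s : Finset G) (w : G → ℝ) (F : G → Prop) [DecidablePred F] :
    ((meas s w).sum fun a t => if F a then t else 0) = ∑ i ∈ s, if F i then w i else 0 := by
  classical
  unfold meas
  rw [← Finsupp.sum_finsetSum_index]
  · exact Finset.sum_congr rfl (fun i _ => Finsupp.sum_single_index (by simp))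
  · intro a; simp
  · intro a b₁ b₂; split_ifs <;> simp

theorem meas_prob {s : Finset G} {w : G → ℝ} (h0 : ∀ g, 0 ≤ w g) (h1 : ∑ g ∈ s, w g = 1) :
    IsProb (meas s w) := by
  classical
  constructor
  · intro a
    unfold meas
    rw [Finsupp.finsetSum_apply]
    refine Finset.sum_nonneg fun i _ => ?_
    rw [Finsupp.single_apply]
    split_ifs
    · exact h0 _
    · exact le_refl _
  · have := meas_sum s w (fun _ => True)
    simp only [if_true] at this
    rw [this, h1]

theorem is12_nonneg [Group G] (A : Set G) : 0 ≤ is12 A :=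
  Real.iInf_nonneg fun ν => Real.iSup_nonneg fun _ => mass_nonneg ν.2 _

theorem is12_le_of [Group G] {A : Set G} {μ : G →₀ ℝ} (hμ : IsProb μ) {C : ℝ}
    (h : ∀ y, mass μ ((fun a => a * y) '' A) ≤ C) : is12 A ≤ C := by
  unfold is12
  refine (ciInf_le ⟨0, ?_⟩ (⟨μ, hμ⟩ : {μ : G →₀ ℝ // IsProb μ})).trans (ciSup_le h)
  rintro _ ⟨ν, rfl⟩
  exact Real.iSup_nonneg fun y => mass_nonneg ν.2 _

theorem is12_univ [Group G] : is12 (Set.univ : Set G) = 1 := by
  classical
  have hd : IsProb (Finsupp.single (1 : G) (1 : ℝ)) := by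
    constructor
    · intro a
      rw [Finsupp.single_apply]
      split_ifs <;> norm_num
    · rw [Finsupp.sum_single_index rfl]
  have : Nonempty {μ : G →₀ ℝ // IsProb μ} := ⟨⟨_, hd⟩⟩
  have h1 : ∀ y : G, (fun a => a * y) '' (Set.univ : Set G) = Set.univ := by
    intro y
    exact Set.image_univ_of_surjective (mul_right_surjective y)
  unfold is12
  simp only [h1]
  have h2 : ∀ μ : {μ : G →₀ ℝ // IsProb μ}, (⨆ _ : G, mass (μ : G →₀ ℝ) Set.univ) = 1 := by
    intro μ
    rw [ciSup_const, mass_univ μ.2]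
  simp only [h2]
  exact ciInf_const

/-- If some averages of `F` are uniformly close to an upper bound `hi` of `F`, then the set where
`F` is below `c < hi` has `is₁₂ = 0`. -/
theorem is12_eq_zero [Group G] (F : G → ℝ) (hi c : ℝ) (hF : ∀ g, F g ≤ hi) (hc : c < hi)
    (h : ∀ ε > 0, ∃ (s : Finset G) (w : G → ℝ), (∀ g, 0 ≤ w g) ∧ ∑ g ∈ s, w g = 1 ∧
        ∀ y, hi - ε ≤ ∑ g ∈ s, w g * F (g * y)) (A : Set G) (hA : ∀ g ∈ A, F g ≤ c) :
    is12 A = 0 := by
  classical
  refine le_antisymm (le_of_forall_pos_le_add fun δ hδ => ?_) (is12_nonneg A)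
  rw [zero_add]
  obtain ⟨s, w, hw0, hw1, hw2⟩ := h (δ * (hi - c)) (mul_pos hδ (by linarith))
  refine is12_le_of (meas_prob hw0 hw1) fun y => ?_
  unfold mass
  rw [meas_sum]
  have h1 := hw2 y⁻¹
  have h2 : ∑ g ∈ s, w g * F (g * y⁻¹) ≤
      ∑ g ∈ s, (w g * hi - (if g ∈ (fun a => a * y) '' A then w g else 0) * (hi - c)) := by
    refine Finset.sum_le_sum fun g _ => ?_
    split_ifs with hg
    · obtain ⟨a, ha, rfl⟩ := hg
      simp only [mul_inv_cancel_right]
      have h3 := mul_le_mul_of_nonneg_left (hA a ha) (hw0 (a * y))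
      linarith
    · have h3 := mul_le_mul_of_nonneg_left (hF (g * y⁻¹)) (hw0 g)
      linarith
  rw [Finset.sum_sub_distrib, ← Finset.sum_mul, hw1, ← Finset.sum_mul, one_mul] at h2
  have h4 : (∑ g ∈ s, if g ∈ (fun a => a * y) '' A then w g else 0) * (hi - c) ≤ δ * (hi - c) := by
    linarith
  exact le_of_mul_le_mul_right h4 (by linarith)

/-- Every non-amenable group is the union of two disjoint sets with `is₁₂ = 0`. -/
theorem two_cells [Group G] (h : ¬ Pool.Agent.H883B.IsAmenable G) :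
    ∃ A : Set G, is12 A = 0 ∧ is12 Aᶜ = 0 := by
  obtain ⟨F, lo, hi, hlt, h1, h2, h3, h4⟩ := Pool.Agent.Q195.AD.exists_fun h
  refine ⟨{g | F g ≤ (lo + hi) / 2}, ?_, ?_⟩
  · exact is12_eq_zero F hi ((lo + hi) / 2) h2 (by linarith) h3 _ fun g hg => hg
  · refine is12_eq_zero (fun g => - F g) (-lo) (-((lo + hi) / 2)) (fun g => neg_le_neg (h1 g))
      (by linarith) (fun ε hε => ?_) _ fun g hg => ?_
    · obtain ⟨s, w, hw0, hw1, hw2⟩ := h4 ε hε
      refine ⟨s, w, hw0, hw1, fun y => ?_⟩
      have := hw2 y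
      simp only [mul_neg, Finset.sum_neg_distrib]
      linarith
    · have : (lo + hi) / 2 < F g := by
        by_contra hno
        exact hg (not_lt.1 hno)
      linarith

theorem result (G : Type u) [Group G] :
    (¬ Pool.Agent.H883B.IsAmenable G → ∃ A : Set G, is12 A = 0 ∧ is12 Aᶜ = 0) ∧
    (PropertyD G → Pool.Agent.H883B.IsAmenable G) ∧
    (PropertyA G → Pool.Agent.H883B.IsAmenable G) ∧
    ((∀ A B : Set G, is12 (A ∪ B) ≤ is12 A + is12 B) → Pool.Agent.H883B.IsAmenable G) := by
  classical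
  have hD : PropertyD G → Pool.Agent.H883B.IsAmenable G := by
    intro hd
    by_contra hna
    obtain ⟨A, hA, hA'⟩ := two_cells hna
    have h1 : A.Nonempty := by
      rw [Set.nonempty_iff_ne_empty]
      rintro rfl
      rw [Set.compl_empty, is12_univ] at hA'
      norm_num at hA'
    have h2 : Aᶜ.Nonempty := by
      rw [Set.nonempty_iff_ne_empty]
      intro h
      rw [Set.compl_empty_iff] at h
      rw [h, is12_univ] at hA
      norm_num at hA
    obtain ⟨a, ha⟩ := h1
    obtain ⟨b, hb⟩ := h2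
    obtain ⟨i, hi⟩ := hd 2 (by norm_num) (fun g => if g ∈ A then 0 else 1) (by
      intro i
      fin_cases i
      · exact ⟨a, if_pos ha⟩
      · exact ⟨b, if_neg hb⟩)
    have h3 : {x | (if x ∈ A then (0 : Fin 2) else 1) = i} = A ∨
        {x | (if x ∈ A then (0 : Fin 2) else 1) = i} = Aᶜ := by
      fin_cases i
      · left
        ext x
        by_cases hx : x ∈ A <;> simp [hx]
      · right
        ext x
        by_cases hx : x ∈ A <;> simp [hx]
    rcases h3 with h3 | h3
    · rw [h3, hA] at hi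
      exact lt_irrefl _ hi
    · rw [h3, hA'] at hi
      exact lt_irrefl _ hi
  refine ⟨two_cells, hD, fun ha => hD fun n hn c hc => ?_, fun hs => ?_⟩
  · obtain ⟨i, hi⟩ := ha n hn c hc
    have : (0:ℝ) < n := by exact_mod_cast hn
    exact ⟨i, (by positivity : (0:ℝ) < 1 / n).trans_le hi⟩
  · by_contra hna
    obtain ⟨A, hA, hA'⟩ := two_cells hna
    have h1 := hs A Aᶜ
    rw [Set.union_compl_self, is12_univ, hA, hA'] at h1
    norm_num at h1

end Pool.Agent.Results.MP_d97def_al.PropertyDAmenable
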